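import Pool.Agent.Q256.UI.Stm

/-!
# Job CZR of project UI
-/

set_option autoImplicit false

namespace Pool.Agent.Q53.UIC

open Finset MvPolynomial Pool.Agent.Q256.UI

/-- a set all of whose finite subsets are small is finite -/
theorem small_set {α : Type} (S : Set α) (M : ℝ) (hM : 0 ≤ M)
    (h : ∀ F : Finset α, (↑F : Set α) ⊆ S → (#F : ℝ) ≤ M) :
    S.Finite ∧ (S.ncard : ℝ) ≤ M := by
  have hfin : S.Finite := by
    by_contra hinf
    obtain ⟨F, hF, hc⟩ := Set.Infinite.exists_subset_card_eq hinf (⌊M⌋₊ + 1)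
    have h1 := h F hF
    rw [hc] at h1
    push_cast at h1
    have := Nat.lt_floor_add_one M
    linarith
  refine ⟨hfin, ?_⟩
  rw [Set.ncard_eq_toFinset_card S hfin]
  exact h _ (by simp)

theorem czr (hcol : S_COL) (hwnd : S_WND) (hlin : S_LIN) (htay : S_TAY) : S_CZR := by
  intro d Φ θ A hd hL hA hlio
  obtain ⟨c, C0, hc, hC0, hcol⟩ := hcol d A (by omega) hA
  obtain ⟨C1, hC1, hlin⟩ := hlin d Φ (by omega) hL
  set c' : ℝ := min 1 c with hc'
  have hc'0 : 0 < c' := lt_min one_pos hc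
  have hc'1 : c' ≤ 1 := min_le_left _ _
  have hc'c : c' ^ 3 ≤ c := by
    have h1 : c' ^ 3 ≤ c' := by
      have : c' ^ 2 ≤ 1 := pow_le_one₀ hc'0.le hc'1
      nlinarith
    exact h1.trans (min_le_right _ _)
  refine ⟨max C0 (2 * C1 * A / c'), le_max_of_le_left hC0, ?_⟩
  intro H T G hH hT hG hBd
  have hH0 : 0 < H := by linarith
  have hCT : C0 * H ≤ T := (mul_le_mul_of_nonneg_right (le_max_left _ _) hH0.le).trans hT
  have hT1 : 1 ≤ T := by nlinarith
  have hT0 : 0 < T := by linarith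
  have hAH : 1 ≤ A * H := by nlinarith
  have hAH0 : 0 ≤ A * H := by linarith
  have hW : A * H ≤ A * H * T ^ (d - 3) := le_mul_of_one_le_right hAH0 (one_le_pow₀ hT1)
  set h23 : ℝ := H ^ ((2 : ℝ) / 3) with hh23
  have hh1 : 1 ≤ h23 := Real.one_le_rpow hH (by norm_num)
  have hh0 : 0 < h23 := by linarith
  have hh3 : h23 ^ 3 = H ^ 2 := by
    rw [hh23, ← Real.rpow_natCast, ← Real.rpow_mul hH0.le, ← Real.rpow_natCast]
    norm_num
  set L : ℝ := c' * T / h23 with hLdef
  have hL0 : 0 < L := by positivity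
  have hLT : L ≤ T := by
    rw [hLdef, div_le_iff₀ hh0]
    nlinarith
  have hL3 : L ^ 3 * H ^ 2 ≤ c * T ^ 3 := by
    rw [hLdef, div_pow, mul_pow, hh3, div_mul_cancel₀ _ (by positivity)]
    exact mul_le_mul_of_nonneg_right hc'c (by positivity)
  set M : ℝ := C1 * (A * H) ^ ((1 : ℝ) / d) with hM
  have hM0 : 0 ≤ M := by positivity
  set S := Ap d (tc (Φ + G) θ) θ A H T (A * H) with hS
  have hdeg : (Φ + G).totalDegree ≤ d :=
    (totalDegree_add _ _).trans (max_le hL.hom.totalDegree_le (by omega))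
  have hwin : ∀ X : ℝ, {p | p ∈ S ∧ X ≤ p.1 ∧ (p.1 : ℝ) ≤ X + L}.Finite ∧
      ({p | p ∈ S ∧ X ≤ p.1 ∧ (p.1 : ℝ) ≤ X + L}.ncard : ℝ) ≤ M := by
    intro X
    apply small_set _ M hM0
    intro F hF
    apply hlin G hG (A * H) hAH F
    · intro p hp
      have h1 := (hF hp).1
      rw [hS] at h1
      have h2 := h1.2.2.2
      rw [← htay.2, ← htay.1 d (Φ + G) θ p.1 _ hdeg] at *
      have h3 : θ * (p.1 : ℝ) + ((p.2 : ℝ) - θ * p.1) = p.2 := by ring
      rw [h3] at h2
      exact h2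
    · intro p hp q hq r hr
      obtain ⟨hp1, hp2, hp3⟩ := hF hp
      obtain ⟨hq1, hq2, hq3⟩ := hF hq
      obtain ⟨hr1, hr2, hr3⟩ := hF hr
      apply hcol H T (A * H) L θ (tc (Φ + G) θ) hH hCT hBd hlio hAH0 hW hL0.le hL3 p hp1 q hq1
        r hr1
      · rw [abs_le]
        constructor <;> linarith
      · rw [abs_le]
        constructor <;> linarith
      · rw [abs_le]
        constructor <;> linarith
  obtain ⟨hfin, hcard⟩ := hwnd S T L M hL0 hLT hM0 (fun p hp => ⟨hp.1, hp.2.1⟩) hwin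
  refine ⟨hfin, hcard.trans ?_⟩
  have h1 : T / L = h23 / c' := by
    rw [hLdef]
    field_simp
  have h2 : (A * H) ^ ((1 : ℝ) / d) ≤ A * H ^ ((1 : ℝ) / 7) := by
    rw [Real.mul_rpow (by linarith) hH0.le]
    have hdR : (7 : ℝ) ≤ d := by exact_mod_cast hd
    apply mul_le_mul _ _ (by positivity) (by linarith)
    · calc A ^ ((1 : ℝ) / d) ≤ A ^ (1 : ℝ) := by
            apply Real.rpow_le_rpow_of_exponent_le hA
            rw [div_le_iff₀ (by linarith)]
            linarith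
        _ = A := Real.rpow_one A
    · apply Real.rpow_le_rpow_of_exponent_le hH
      exact one_div_le_one_div_of_le (by norm_num) hdR
  rw [h1]
  calc 2 * M * (h23 / c') = 2 * C1 / c' * ((A * H) ^ ((1 : ℝ) / d) * h23) := by
        rw [hM]
        ring
    _ ≤ 2 * C1 / c' * (A * H ^ ((1 : ℝ) / 7) * h23) := by gcongr
    _ = 2 * C1 * A / c' * H ^ ((2 : ℝ) / 3 + 1 / 7) := by
        rw [hh23, Real.rpow_add hH0]
        ring
    _ ≤ max C0 (2 * C1 * A / c') * H ^ ((2 : ℝ) / 3 + 1 / 7) := by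
        gcongr
        exact le_max_right _ _

end Pool.Agent.Q53.UIC
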