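import Pool.Agent.Q256.UI.Stm

/-!
# Job PKG of project UI
-/

set_option autoImplicit false

namespace Pool.Agent.Q53.UIP

open Finset MvPolynomial Pool.Agent.Q256.UI

theorem ev_cast (F : MvPolynomial (Fin 2) ℤ) (x y : ℤ) :
    ev F x y = ((eval ![x, y] F : ℤ) : ℝ) := by
  unfold ev
  have h := MvPolynomial.eval₂_comp_left (Int.castRingHom ℝ) (RingHom.id ℤ) ![x, y] F
  have h1 : (Int.castRingHom ℝ) ∘ ![x, y] = ![(x : ℝ), (y : ℝ)] := by
    funext i
    fin_cases i <;> simp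
  rw [h1] at h
  have h2 : (Int.castRingHom ℝ).comp (RingHom.id ℤ) = Int.castRingHom ℝ := RingHom.comp_id _
  rw [h2] at h
  rw [← h]
  rfl

theorem lio_mono {d : ℕ} {A B θ : ℝ} (h : Lio d A θ) (hAB : A ≤ B) : Lio d B θ := by
  intro a b hb
  have hb' : (0 : ℝ) ≤ (b : ℝ) ^ (d - 1) := by
    have : (0 : ℝ) ≤ b := by exact_mod_cast (by omega : (0 : ℤ) ≤ b)
    positivity
  calc (1 : ℝ) ≤ A * |(b : ℝ) * θ - a| * (b : ℝ) ^ (d - 1) := h a b hb
    _ ≤ B * |(b : ℝ) * θ - a| * (b : ℝ) ^ (d - 1) := by gcongr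

theorem bd_mono {d : ℕ} {A B H : ℝ} {a : ℕ → ℕ → ℝ} (h : Bd d A H a) (hH : 0 ≤ H) (hAB : A ≤ B) :
    Bd d B H a where
  zero := h.zero
  one := h.one.trans (mul_le_mul_of_nonneg_right hAB (abs_nonneg _))
  top := fun j hj => (h.top j hj).trans hAB
  low := fun k j hk hj => (h.low k j hk hj).trans (mul_le_mul_of_nonneg_right hAB hH)

theorem pkg (hrt : S_RT) (hbdd : S_BDD) : S_PKG := by
  intro d Φ hd hL
  obtain ⟨Θ, C, hC, hθ, hmain⟩ := hrt d Φ hd hL
  have hb : ∀ θ ∈ Θ, ∃ A : ℝ, 1 ≤ A ∧ ∀ H : ℕ, 1 ≤ H → ∀ F ∈ Fam Φ d H, Bd d A H (tc F θ) :=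
    fun θ h => hbdd d Φ θ hd hL.hom (hθ θ h).1 (hθ θ h).2.1
  choose! K hK1 hK using hb
  set C' : ℝ := d * 2 ^ d + NN d with hC'
  have hC'0 : 0 ≤ C' := by positivity
  set A : ℝ := (d : ℝ) * 4 ^ d + C + C * C' + 1 + ∑ θ ∈ Θ, |K θ| with hA
  have hsum0 : 0 ≤ ∑ θ ∈ Θ, |K θ| := sum_nonneg fun _ _ => abs_nonneg _
  have hd4 : (0 : ℝ) ≤ (d : ℝ) * 4 ^ d := by positivity
  have hCC : 0 ≤ C * C' := mul_nonneg (by linarith) hC'0
  refine ⟨Θ, A, ?_, ?_, ?_, ?_⟩
  · rw [hA]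
    linarith
  · intro θ h
    exact lio_mono (hθ θ h).2.2 (by rw [hA]; linarith)
  · intro θ h H hH F hF
    apply bd_mono (hK θ h H hH F hF) (by positivity)
    have h1 : K θ ≤ ∑ θ ∈ Θ, |K θ| := (le_abs_self _).trans
      (Finset.single_le_sum (f := fun θ => |K θ|) (fun _ _ => abs_nonneg _) h)
    rw [hA]
    linarith
  · intro H hH F hF x y hx hy hev
    obtain ⟨G, hG, rfl⟩ := hF
    have hHR : (1 : ℝ) ≤ H := by exact_mod_cast hH
    have hA1 : 1 ≤ A := by rw [hA]; linarith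
    have hxR : (1 : ℝ) ≤ x := by nlinarith
    have hx1 : 1 ≤ x := by exact_mod_cast hxR
    have hx0 : (0 : ℝ) < x := by linarith
    have hyR : |(y : ℝ)| ≤ x := by exact_mod_cast hy
    -- the value of `G`
    have hGv : |ev G x y| ≤ NN d * H * (x : ℝ) ^ (d - 1) := by
      rw [ev_cast]
      have h1 := Pool.Agent.Q256.UP.eval_le hG ![x, y] x.toNat (by omega) (by
        intro k
        have h2 : ((x.toNat : ℕ) : ℤ) = x := Int.toNat_of_nonneg (by omega)
        rw [h2]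
        fin_cases k
        · simp [abs_of_nonneg (by omega : (0 : ℤ) ≤ x)]
        · simpa using hy)
      have h3 : ((|eval ![x, y] G| : ℤ) : ℝ) ≤
          ((((d - 1 + 2).choose 2 * H * x.toNat ^ (d - 1) : ℕ) : ℤ) : ℝ) := by
        exact_mod_cast h1
      have h4 : ((x.toNat : ℕ) : ℝ) = x := by
        have h2 : ((x.toNat : ℕ) : ℤ) = x := Int.toNat_of_nonneg (by omega)
        exact_mod_cast h2
      have h5 : d - 1 + 2 = d + 1 := by omega
      rw [h5] at h3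
      push_cast at h3
      rw [h4] at h3
      exact_mod_cast h3
    have hsplit : ev (Φ + G) x y = ev Φ x y + ev G x y := by
      unfold ev
      rw [eval₂_add]
    have hΦ : |ev Φ x y| ≤ C' * (H * (x : ℝ) ^ (d - 1)) := by
      have h1 : ev Φ x y = ev (Φ + G) x y - ev G x y := by rw [hsplit]; ring
      rw [h1]
      calc |ev (Φ + G) x y - ev G x y| ≤ |ev (Φ + G) x y| + |ev G x y| := abs_sub _ _
        _ ≤ d * 2 ^ d * H * (x : ℝ) ^ (d - 1) + NN d * H * (x : ℝ) ^ (d - 1) :=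
            add_le_add hev hGv
        _ = C' * (H * (x : ℝ) ^ (d - 1)) := by rw [hC']; ring
    have hpw : (x : ℝ) ^ d = x * (x : ℝ) ^ (d - 1) := by
      rw [← pow_succ']
      congr 1
      omega
    have hp0 : (0 : ℝ) < (x : ℝ) ^ (d - 1) := by positivity
    rcases hmain x y hx0 hyR with h | ⟨θ, hθm, h⟩
    · exfalso
      have h1 : (x : ℝ) * (x : ℝ) ^ (d - 1) ≤ C * C' * H * (x : ℝ) ^ (d - 1) := by
        rw [← hpw]
        calc (x : ℝ) ^ d ≤ C * |ev Φ x y| := h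
          _ ≤ C * (C' * (H * (x : ℝ) ^ (d - 1))) := mul_le_mul_of_nonneg_left hΦ (by linarith)
          _ = _ := by ring
      have h2 : (x : ℝ) ≤ C * C' * H := le_of_mul_le_mul_right h1 hp0
      have h3 : (C * C' + 1) * H ≤ A * H := by
        apply mul_le_mul_of_nonneg_right _ (by linarith)
        rw [hA]
        linarith
      nlinarith
    · refine ⟨θ, hθm, ?_⟩
      have h1 : |(y : ℝ) - θ * x| * (x : ℝ) ^ (d - 1) ≤ C * C' * H * (x : ℝ) ^ (d - 1) := by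
        calc |(y : ℝ) - θ * x| * (x : ℝ) ^ (d - 1) ≤ C * |ev Φ x y| := h
          _ ≤ C * (C' * (H * (x : ℝ) ^ (d - 1))) := mul_le_mul_of_nonneg_left hΦ (by linarith)
          _ = _ := by ring
      have h2 := le_of_mul_le_mul_right h1 hp0
      refine h2.trans ?_
      apply mul_le_mul_of_nonneg_right _ (by linarith)
      rw [hA]
      linarith

end Pool.Agent.Q53.UIP
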