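import Pool.Agent.Q256.UI.Stm

/-!
# Job RT of project UI
-/

set_option autoImplicit false

namespace Pool.Agent.Q53.UI

open Finset MvPolynomial Pool.Agent.Q256.UI Topology

theorem ev_cast (F : MvPolynomial (Fin 2) ℤ) (x y : ℤ) :
    ev F x y = ((eval ![x, y] F : ℤ) : ℝ) := by
  unfold ev
  have h := MvPolynomial.eval₂_comp_left (Int.castRingHom ℝ) (RingHom.id ℤ) ![x, y] F
  have h1 : (Int.castRingHom ℝ) ∘ ![x, y] = ![(x : ℝ), (y : ℝ)] := by
    funext i
    fin_cases i <;> simp
  rw [h1] at h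
  have h2 : (Int.castRingHom ℝ).comp (RingHom.id ℤ) = Int.castRingHom ℝ := RingHom.comp_id _
  rw [h2] at h
  rw [← h]
  rfl

theorem lio_mono {d : ℕ} {A B θ : ℝ} (h : Lio d A θ) (hAB : A ≤ B) : Lio d B θ := by
  intro a b hb
  have hb' : (0 : ℝ) ≤ (b : ℝ) ^ (d - 1) := by
    have : (0 : ℝ) ≤ b := by exact_mod_cast (by omega : (0 : ℤ) ≤ b)
    positivity
  calc (1 : ℝ) ≤ A * |(b : ℝ) * θ - a| * (b : ℝ) ^ (d - 1) := h a b hb
    _ ≤ B * |(b : ℝ) * θ - a| * (b : ℝ) ^ (d - 1) := by gcongr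

/-- `p` near `[-1, 1]` -/
def Near (p : Polynomial ℝ) (Θ : Finset ℝ) (s : Set ℝ) : Prop :=
  ∃ C : ℝ, 0 ≤ C ∧ ∀ z ∈ s, 1 ≤ C * |p.eval z| ∨ ∃ θ ∈ Θ, |z - θ| ≤ C * |p.eval z|

theorem near_all (p : Polynomial ℝ) (hp : p ≠ 0)
    (hsep : ∀ θ, p.eval θ = 0 → p.derivative.eval θ ≠ 0) (K : Set ℝ) (hK : IsCompact K) :
    Near p p.roots.toFinset K := by
  refine hK.induction_on (p := Near p p.roots.toFinset) ⟨0, le_rfl, fun z hz => hz.elim⟩ ?_ ?_ ?_
  · rintro s t hst ⟨C, hC, h⟩
    exact ⟨C, hC, fun z hz => h z (hst hz)⟩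
  · rintro s t ⟨C, hC, h⟩ ⟨C', hC', h'⟩
    refine ⟨max C C', le_max_of_le_left hC, ?_⟩
    rintro z (hz | hz)
    · have h1 : C * |p.eval z| ≤ max C C' * |p.eval z| :=
        mul_le_mul_of_nonneg_right (le_max_left _ _) (abs_nonneg _)
      rcases h z hz with h2 | ⟨θ, hθ, h2⟩
      · exact Or.inl (h2.trans h1)
      · exact Or.inr ⟨θ, hθ, h2.trans h1⟩
    · have h1 : C' * |p.eval z| ≤ max C C' * |p.eval z| :=
        mul_le_mul_of_nonneg_right (le_max_right _ _) (abs_nonneg _)
      rcases h' z hz with h2 | ⟨θ, hθ, h2⟩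
      · exact Or.inl (h2.trans h1)
      · exact Or.inr ⟨θ, hθ, h2.trans h1⟩
  · intro x _
    by_cases hx : p.eval x = 0
    · -- a root
      set g := p /ₘ (Polynomial.X - Polynomial.C x) with hg
      have h1 : (Polynomial.X - Polynomial.C x) * g = p :=
        Polynomial.mul_divByMonic_eq_iff_isRoot.2 hx
      have hgx : g.eval x ≠ 0 := by
        have h2 := hsep x hx
        rw [← h1, Polynomial.derivative_mul] at h2
        simpa using h2
      have hcont : ContinuousAt (fun z => |g.eval z|) x := (g.continuous.abs).continuousAt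
      have hpos : 0 < |g.eval x| := abs_pos.2 hgx
      have hev : ∀ᶠ z in 𝓝 x, |g.eval x| / 2 < |g.eval z| :=
        hcont.eventually (lt_mem_nhds (by linarith))
      refine ⟨{z | |g.eval x| / 2 < |g.eval z|}, mem_nhdsWithin_of_mem_nhds hev,
        2 / |g.eval x|, by positivity, ?_⟩
      intro z hz
      rw [Set.mem_ofPred_eq] at hz
      right
      refine ⟨x, ?_, ?_⟩
      · rw [Multiset.mem_toFinset, Polynomial.mem_roots hp]
        exact hx
      · rw [← h1, Polynomial.eval_mul, abs_mul, Polynomial.eval_sub, Polynomial.eval_X,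
          Polynomial.eval_C]
        rw [div_mul_eq_mul_div, le_div_iff₀ hpos]
        nlinarith [abs_nonneg (z - x)]
    · have hcont : ContinuousAt (fun z => |p.eval z|) x := (p.continuous.abs).continuousAt
      have hpos : 0 < |p.eval x| := abs_pos.2 hx
      have hev : ∀ᶠ z in 𝓝 x, |p.eval x| / 2 < |p.eval z| :=
        hcont.eventually (lt_mem_nhds (by linarith))
      refine ⟨{z | |p.eval x| / 2 < |p.eval z|}, mem_nhdsWithin_of_mem_nhds hev,
        2 / |p.eval x|, by positivity, ?_⟩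
      intro z hz
      rw [Set.mem_ofPred_eq] at hz
      left
      rw [div_mul_eq_mul_div, le_div_iff₀ hpos]
      linarith

theorem rt (hdeh : S_DEH) : S_RT := by
  intro d Φ hd hL
  obtain ⟨f, hfd, hfirr, hfc, hfev⟩ := hdeh d Φ hd hL
  set p : Polynomial ℝ := f.map (Int.castRingHom ℝ) with hp
  have hf0 : f ≠ 0 := by
    rintro rfl
    simp at hfd
    omega
  have hp0 : p ≠ 0 := by
    rw [hp]
    exact (Polynomial.map_ne_zero_iff (RingHom.injective_int _)).2 hf0
  have hpq : p = (f.map (Int.castRingHom ℚ)).map (algebraMap ℚ ℝ) := by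
    rw [hp, Polynomial.map_map]
    congr 1
  have hsepq : (f.map (Int.castRingHom ℚ)).Separable := hfirr.separable
  have hsep : ∀ θ, p.eval θ = 0 → p.derivative.eval θ ≠ 0 := by
    intro θ hθ
    have h1 : (f.map (Int.castRingHom ℚ)).eval₂ (algebraMap ℚ ℝ) θ = 0 := by
      rw [← Polynomial.eval_map, ← hpq]
      exact hθ
    have h2 := hsepq.eval₂_derivative_ne_zero (algebraMap ℚ ℝ) h1
    rw [← Polynomial.eval_map, ← Polynomial.derivative_map, ← hpq] at h2
    exact h2
  obtain ⟨C1, hC1, hnear⟩ := near_all p hp0 hsep (Set.Icc (-1) 1) isCompact_Icc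
  set Θ := p.roots.toFinset with hΘ
  have hroot : ∀ θ ∈ Θ, p.eval θ = 0 := by
    intro θ hθ
    rw [hΘ, Multiset.mem_toFinset, Polynomial.mem_roots hp0] at hθ
    exact hθ
  -- no rational zero
  have hrat : ∀ a b : ℤ, 1 ≤ b → p.eval ((a : ℝ) / b) ≠ 0 := by
    intro a b hb h0
    have h1 : (f.map (Int.castRingHom ℚ)).eval ((a : ℚ) / b) = 0 := by
      have h2 : p.eval ((a : ℝ) / b) =
          algebraMap ℚ ℝ ((f.map (Int.castRingHom ℚ)).eval ((a : ℚ) / b)) := by
        rw [hpq, ← Polynomial.eval₂_at_apply, Polynomial.eval_map]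
        congr 1
        simp
      rw [h2] at h0
      exact (map_eq_zero _).1 h0
    have h3 := Polynomial.degree_eq_one_of_irreducible_of_root hfirr h1
    have h4 : (f.map (Int.castRingHom ℚ)).natDegree = 1 :=
      Polynomial.natDegree_eq_of_degree_eq_some h3
    rw [Polynomial.natDegree_map_eq_of_injective (RingHom.injective_int _), hfd] at h4
    omega
  -- Liouville
  have hlio : ∀ θ ∈ Θ, ∃ K : ℝ, Lio d K θ := by
    intro θ hθ
    set g := p /ₘ (Polynomial.X - Polynomial.C θ) with hg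
    have h1 : (Polynomial.X - Polynomial.C θ) * g = p :=
      Polynomial.mul_divByMonic_eq_iff_isRoot.2 (hroot θ hθ)
    obtain ⟨K, hK⟩ := (isCompact_Icc (a := θ - 1) (b := θ + 1)).exists_bound_of_continuousOn
      (g.continuous.continuousOn)
    refine ⟨max 1 K, ?_⟩
    intro a b hb
    have hbR : (1 : ℝ) ≤ b := by exact_mod_cast hb
    have hb0 : (0 : ℝ) < b := by linarith
    have hbd : (1 : ℝ) ≤ (b : ℝ) ^ (d - 1) := one_le_pow₀ hbR
    have h5 : |(b : ℝ) * θ - a| = |(a : ℝ) / b - θ| * b := by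
      rw [← abs_of_pos hb0, ← abs_mul, abs_of_pos hb0, sub_mul, div_mul_cancel₀ _ hb0.ne',
        abs_sub_comm]
      congr 1
      ring
    by_cases hfar : |(a : ℝ) / b - θ| ≤ 1
    · have h2 : |g.eval ((a : ℝ) / b)| ≤ K := by
        apply hK
        rw [abs_le] at hfar
        constructor <;> linarith [hfar.1, hfar.2]
      have h3 : |p.eval ((a : ℝ) / b)| ≤ |(a : ℝ) / b - θ| * K := by
        rw [← h1, Polynomial.eval_mul, abs_mul, Polynomial.eval_sub, Polynomial.eval_X,
          Polynomial.eval_C]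
        exact mul_le_mul_of_nonneg_left h2 (abs_nonneg _)
      have h4 : (1 : ℝ) ≤ (b : ℝ) ^ d * |p.eval ((a : ℝ) / b)| := by
        have h6 := hfev b a hb0.ne'
        rw [ev_cast] at h6
        have h7 : ((eval ![b, a] Φ : ℤ) : ℝ) ≠ 0 := by
          rw [h6]
          exact mul_ne_zero (by positivity) (hrat a b hb)
        have h8 : (1 : ℝ) ≤ |((eval ![b, a] Φ : ℤ) : ℝ)| := by
          have : (eval ![b, a] Φ : ℤ) ≠ 0 := by exact_mod_cast h7
          exact_mod_cast Int.one_le_abs this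
        rw [h6, abs_mul, abs_of_pos (by positivity : (0 : ℝ) < (b : ℝ) ^ d)] at h8
        exact h8
      rw [h5]
      have h9 : (b : ℝ) ^ d = b * (b : ℝ) ^ (d - 1) := by
        rw [← pow_succ']
        congr 1
        omega
      calc (1 : ℝ) ≤ (b : ℝ) ^ d * |p.eval ((a : ℝ) / b)| := h4
        _ ≤ (b : ℝ) ^ d * (|(a : ℝ) / b - θ| * K) :=
            mul_le_mul_of_nonneg_left h3 (by positivity)
        _ ≤ (b : ℝ) ^ d * (|(a : ℝ) / b - θ| * max 1 K) := by
            gcongr
            exact le_max_right _ _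
        _ = max 1 K * (|(a : ℝ) / b - θ| * b) * (b : ℝ) ^ (d - 1) := by
            rw [h9]
            ring
    · push Not at hfar
      rw [h5]
      have h10 : (1 : ℝ) ≤ |(a : ℝ) / b - θ| * b := by nlinarith
      have h11 : (1 : ℝ) ≤ max 1 K := le_max_left _ _
      calc (1 : ℝ) = 1 * 1 * 1 := by ring
        _ ≤ max 1 K * (|(a : ℝ) / b - θ| * b) * (b : ℝ) ^ (d - 1) := by gcongr
  choose! K hK using hlio
  refine ⟨Θ, max 1 (max C1 (∑ θ ∈ Θ, |K θ|)), le_max_left _ _, ?_, ?_⟩
  · intro θ hθ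
    refine ⟨?_, ?_, ?_⟩
    · rw [hfev 1 θ one_ne_zero]
      simp only [one_pow, div_one, one_mul]
      exact hroot θ hθ
    · have h1 := hsep θ (hroot θ hθ)
      have h2 : p.derivative.eval θ = tc Φ θ d 1 := by
        rw [Polynomial.derivative_eval, Polynomial.sum_over_range' _ _ (d + 1)
          (lt_of_le_of_lt (Polynomial.natDegree_map_le) (by omega))]
        · unfold tc
          apply sum_congr rfl
          intro i hi
          rw [mem_range] at hi
          rw [Polynomial.coeff_map, hfc i (by omega), Nat.choose_one_right]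
          simp
        · intro n
          simp
      rw [← h2]
      exact h1
    · apply lio_mono (hK θ hθ)
      calc K θ ≤ |K θ| := le_abs_self _
        _ ≤ ∑ θ ∈ Θ, |K θ| := Finset.single_le_sum (f := fun θ => |K θ|)
            (fun _ _ => abs_nonneg _) hθ
        _ ≤ _ := (le_max_right _ _).trans (le_max_right _ _)
  · intro x y hx hy
    have hCC : C1 ≤ max 1 (max C1 (∑ θ ∈ Θ, |K θ|)) := (le_max_left _ _).trans (le_max_right _ _)
    have hz : y / x ∈ Set.Icc (-1 : ℝ) 1 := by
      rw [abs_le] at hy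
      constructor
      · rw [le_div_iff₀ hx]
        linarith [hy.1]
      · rw [div_le_iff₀ hx]
        linarith [hy.2]
    rw [hfev x y hx.ne', abs_mul, abs_of_pos (by positivity : (0 : ℝ) < x ^ d)]
    rcases hnear _ hz with h | ⟨θ, hθ, h⟩
    · left
      calc x ^ d = x ^ d * 1 := (mul_one _).symm
        _ ≤ x ^ d * (C1 * |p.eval (y / x)|) := mul_le_mul_of_nonneg_left h (by positivity)
        _ = C1 * (x ^ d * |p.eval (y / x)|) := by ring
        _ ≤ _ := mul_le_mul_of_nonneg_right hCC (by positivity)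
    · right
      refine ⟨θ, hθ, ?_⟩
      have h1 : |y - θ * x| = |y / x - θ| * x := by
        rw [← abs_of_pos hx, ← abs_mul, abs_of_pos hx, sub_mul, div_mul_cancel₀ _ hx.ne']
      have h2 : x ^ d = x * x ^ (d - 1) := by
        rw [← pow_succ']
        congr 1
        omega
      calc |y - θ * x| * x ^ (d - 1) = |y / x - θ| * x ^ d := by rw [h1, h2]; ring
        _ ≤ C1 * |p.eval (y / x)| * x ^ d := mul_le_mul_of_nonneg_right h (by positivity)
        _ = C1 * (x ^ d * |p.eval (y / x)|) := by ring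
        _ ≤ _ := mul_le_mul_of_nonneg_right hCC (by positivity)

end Pool.Agent.Q53.UI
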