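import Pool.Agent.Q82.QD.Stm

/-!
# Project QD, job ASY1: the derivative of the profile
-/

set_option autoImplicit false

open MeasureTheory Filter Topology Real Set

namespace Pool.Agent.Q82.QD

theorem asy1_f_le {F : ℝ → ℝ} (hF : Prof F) {σ : ℝ} (hσ : 0 ≤ σ) :
    6 * Real.exp (4 * F σ) ≤ 96 / (1 + σ) ^ 4 := by
  have hp : (0 : ℝ) < 1 + σ := by linarith
  have h1 := hF.2.2 σ hσ
  have hq : 0 ≤ qq * σ := mul_nonneg (by unfold qq; norm_num) hσ
  have h2 : F σ ≤ Real.log (2 / (1 + σ)) := by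
    rw [Real.log_div (by norm_num) hp.ne']
    linarith
  have e1 : Real.exp (4 * Real.log (2 / (1 + σ))) = 16 / (1 + σ) ^ 4 := by
    rw [show 4 * Real.log (2 / (1 + σ)) = Real.log (2 / (1 + σ)) * (4 : ℕ) by push_cast; ring,
      Real.exp_mul, Real.exp_log (by positivity), Real.rpow_natCast, div_pow]
    norm_num
  calc 6 * Real.exp (4 * F σ) ≤ 6 * Real.exp (4 * Real.log (2 / (1 + σ))) := by gcongr
    _ = 96 / (1 + σ) ^ 4 := by
        rw [e1]
        ring

theorem asy1_M_nonneg (F : ℝ → ℝ) {τ : ℝ} (hτ : 0 ≤ τ) : 0 ≤ MM F τ := by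
  unfold MM
  refine intervalIntegral.integral_nonneg hτ fun σ hσ => ?_
  have := hσ.1
  positivity

theorem asy1_M_le {F : ℝ → ℝ} (hF : Prof F) {τ : ℝ} (hτ : 0 ≤ τ) : MM F τ ≤ 96 := by
  have hFc : Continuous F := hF.1
  have hne : ∀ σ ∈ Set.uIcc (0 : ℝ) τ, (1 + σ) ≠ 0 := by
    intro σ hσ
    rw [Set.uIcc_of_le hτ] at hσ
    have := hσ.1
    positivity
  have hci : IntervalIntegrable (fun σ : ℝ => 96 * ((1 + σ) ^ 2)⁻¹) volume 0 τ := by
    refine ContinuousOn.intervalIntegrable ?_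
    refine continuousOn_const.mul (ContinuousOn.inv₀ (by fun_prop) ?_)
    intro σ hσ
    exact pow_ne_zero 2 (hne σ hσ)
  unfold MM
  calc ∫ σ in (0 : ℝ)..τ, σ * (6 * Real.exp (4 * F σ))
      ≤ ∫ σ in (0 : ℝ)..τ, 96 * ((1 + σ) ^ 2)⁻¹ := by
        refine intervalIntegral.integral_mono_on hτ
          (Continuous.intervalIntegrable (by fun_prop) _ _) hci ?_
        intro σ hσ
        have h0 := hσ.1
        calc σ * (6 * Real.exp (4 * F σ)) ≤ σ * (96 / (1 + σ) ^ 4) :=
              mul_le_mul_of_nonneg_left (asy1_f_le hF h0) h0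
          _ ≤ (1 + σ) ^ 2 * (96 / (1 + σ) ^ 4) :=
              mul_le_mul_of_nonneg_right (by nlinarith) (by positivity)
          _ = 96 * ((1 + σ) ^ 2)⁻¹ := by
              field_simp
    _ = -(96 * (1 + τ)⁻¹) - -(96 * (1 + 0)⁻¹) := by
        refine intervalIntegral.integral_eq_sub_of_hasDerivAt
          (f := fun σ : ℝ => -(96 * (1 + σ)⁻¹)) ?_ hci
        intro σ hσ
        have hn := hne σ hσ
        have d0 : HasDerivAt (fun σ : ℝ => 1 + σ) 1 σ := by
          simpa using (hasDerivAt_id σ).const_add (1 : ℝ)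
        have d1 := ((d0.fun_inv hn).const_mul 96).fun_neg
        convert d1 using 1
        field_simp
    _ ≤ 96 := by
        have : 0 ≤ 96 * (1 + τ)⁻¹ := by positivity
        norm_num
        linarith

theorem asy1 (h1 : S_LOP) : S_ASY1 := by
  intro F hF
  have hFc : Continuous F := hF.1
  have hf : Continuous (fun t => 6 * Real.exp (4 * F t)) := by fun_prop
  obtain ⟨gc, gd, gi, -⟩ := h1 _ hf
  set g : ℝ → ℝ := Lop (fun t => 6 * Real.exp (4 * F t)) with hg
  have hd : ∀ t ∈ Ioi (0 : ℝ), HasDerivAt g (MM F t / (4 * t ^ 2)) t := by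
    intro t ht
    have ht0 : 0 < t := ht
    have h2 := gd t
    have h3 := gi t ht0
    have e1 : ∫ θ in (0 : ℝ)..1, θ / 4 * (6 * Real.exp (4 * F (θ * t))) =
        MM F t / (4 * t ^ 2) := by
      have h3' : ∫ θ in (0 : ℝ)..1, θ / 4 * (6 * Real.exp (4 * F (θ * t))) =
        (t ^ 2)⁻¹ * ∫ r in (0 : ℝ)..t, r / 4 * (6 * Real.exp (4 * F r)) := h3
      rw [h3']
      have e2 : ∫ r in (0 : ℝ)..t, r / 4 * (6 * Real.exp (4 * F r)) = MM F t / 4 := by
        unfold MM
        rw [← intervalIntegral.integral_div]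
        refine intervalIntegral.integral_congr fun r _ => ?_
        ring
      rw [e2]
      field_simp
    have h4 : HasDerivAt g (∫ θ in (0 : ℝ)..1, θ / 4 * (6 * Real.exp (4 * F (θ * t)))) t := h2
    rwa [e1] at h4
  have hpos : ∀ t ∈ Ioi (0 : ℝ), 0 ≤ MM F t / (4 * t ^ 2) := by
    intro t ht
    have ht0 : 0 < t := ht
    have := asy1_M_nonneg F ht0.le
    positivity
  have hmono : MonotoneOn g (Ici 0) := by
    refine monotoneOn_of_deriv_nonneg (convex_Ici 0) gc.continuousOn ?_ ?_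
    · intro t ht
      rw [interior_Ici] at ht
      exact (hd t ht).differentiableAt.differentiableWithinAt
    · intro t ht
      rw [interior_Ici] at ht
      rw [(hd t ht).deriv]
      exact hpos t ht
  have hbd : ∀ t : ℝ, 1 ≤ t → g t ≤ g 1 + 24 := by
    have ha : AntitoneOn (fun t => g t + 24 * t⁻¹) (Ici 1) := by
      have hdd : ∀ t : ℝ, 0 < t → HasDerivAt (fun t => g t + 24 * t⁻¹)
          (MM F t / (4 * t ^ 2) + 24 * (-(t ^ 2)⁻¹)) t := by
        intro t ht
        exact (hd t ht).add ((hasDerivAt_inv ht.ne').const_mul 24)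
      refine antitoneOn_of_deriv_nonpos (convex_Ici 1) ?_ ?_ ?_
      · intro t ht
        have h0 : (0 : ℝ) < t := lt_of_lt_of_le one_pos ht
        exact (hdd t h0).continuousAt.continuousWithinAt
      · intro t ht
        rw [interior_Ici] at ht
        have h0 : (0 : ℝ) < t := lt_trans one_pos ht
        exact (hdd t h0).differentiableAt.differentiableWithinAt
      · intro t ht
        rw [interior_Ici] at ht
        have h0 : (0 : ℝ) < t := lt_trans one_pos ht
        rw [(hdd t h0).deriv]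
        have h2 := asy1_M_le hF h0.le
        have e1 : MM F t / (4 * t ^ 2) + 24 * (-(t ^ 2)⁻¹) = (MM F t - 96) / (4 * t ^ 2) := by
          field_simp
          ring
        rw [e1]
        exact div_nonpos_of_nonpos_of_nonneg (by linarith) (by positivity)
    intro t ht
    have h3 := ha (Set.mem_Ici.mpr (le_refl (1 : ℝ))) (Set.mem_Ici.mpr ht) ht
    have h4 : (0 : ℝ) ≤ 24 * t⁻¹ := by positivity
    have h5 : g t + 24 * t⁻¹ ≤ g 1 + 24 * (1 : ℝ)⁻¹ := h3
    rw [inv_one, mul_one] at h5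
    linarith
  obtain ⟨l, hl⟩ : ∃ l : ℝ, Tendsto g atTop (𝓝 l) := by
    set g2 : ℝ → ℝ := fun t => g (max t 0) with hg2
    have hm2 : Monotone g2 := fun x y hxy =>
      hmono (Set.mem_Ici.mpr (le_max_right _ _)) (Set.mem_Ici.mpr (le_max_right _ _))
        (max_le_max_right _ hxy)
    have hb2 : BddAbove (Set.range g2) := by
      refine ⟨g 1 + 24, ?_⟩
      rintro _ ⟨t, rfl⟩
      have h3 : g (max t 0) ≤ g (max t 1) :=
        hmono (Set.mem_Ici.mpr (le_max_right _ _))
          (Set.mem_Ici.mpr (le_trans zero_le_one (le_max_right t 1)))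
          (max_le_max_left _ zero_le_one)
      exact h3.trans (hbd _ (le_max_right _ _))
    have h4 := tendsto_atTop_ciSup hm2 hb2
    refine ⟨_, h4.congr' ?_⟩
    filter_upwards [eventually_ge_atTop (0 : ℝ)] with t ht
    show g (max t 0) = g t
    rw [max_eq_left ht]
  have hR : ∀ t : ℝ, 0 ≤ t → Rr F t = l - g t := by
    intro t ht
    unfold Rr
    refine integral_Ioi_of_hasDerivAt_of_nonneg gc.continuousAt.continuousWithinAt
      (fun x hx => hd x (lt_of_le_of_lt ht hx)) (fun x hx => hpos x (lt_of_le_of_lt ht hx)) hl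
  refine ⟨1 + qq - l / 8, ?_⟩
  intro s hs
  obtain ⟨-, Gd, Gi, -⟩ := h1 _ gc
  have hG := Gd s
  rw [Gi s hs] at hG
  have hH : Hh F s = l / 8 - (s ^ 2)⁻¹ * ∫ t in (0 : ℝ)..s, t / 4 * g t := by
    unfold Hh
    have e1 : ∫ t in (0 : ℝ)..s, t / 4 * Rr F t = ∫ t in (0 : ℝ)..s, (t / 4 * l - t / 4 * g t) := by
      refine intervalIntegral.integral_congr fun t ht => ?_
      rw [Set.uIcc_of_le hs.le] at ht
      show t / 4 * Rr F t = t / 4 * l - t / 4 * g t
      rw [hR t ht.1]
      ring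
    rw [e1, intervalIntegral.integral_sub (Continuous.intervalIntegrable (by fun_prop) _ _)
      (Continuous.intervalIntegrable (by fun_prop) _ _), intervalIntegral.integral_mul_const,
      intervalIntegral.integral_div, integral_id]
    field_simp
    ring
  have hFe : F =ᶠ[𝓝 s] fun s => Real.log 2 - (1 + qq) * s + Lop g s := by
    filter_upwards [Ioi_mem_nhds hs] with t ht
    exact hF.2.1 t (le_of_lt ht)
  have hder : HasDerivAt (fun s => Real.log 2 - (1 + qq) * s + Lop g s)
      (-((1 + qq) * 1) + (s ^ 2)⁻¹ * ∫ t in (0 : ℝ)..s, t / 4 * g t) s :=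
    (((hasDerivAt_id s).const_mul (1 + qq)).const_sub (Real.log 2)).add hG
  have hfin := hder.congr_of_eventuallyEq hFe
  have e3 : -(1 + qq - l / 8 + Hh F s) =
      -((1 + qq) * 1) + (s ^ 2)⁻¹ * ∫ t in (0 : ℝ)..s, t / 4 * g t := by
    rw [hH]
    ring
  rw [e3]
  exact hfin

end Pool.Agent.Q82.QD
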