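import Pool.Agent.Q82.QD.Stm

/-!
# Project QD, job EXF: existence of the profile

Monotone iteration; the differences are bounded by `qq (2/3)^n exp (3 |s|)`.
-/

set_option autoImplicit false

open MeasureTheory Filter Topology Real Set

namespace Pool.Agent.Q82.QD

theorem exf_inner_cont {f : ℝ → ℝ} (hf : Continuous f) :
    Continuous (fun t : ℝ => ∫ θ in (0 : ℝ)..1, θ / 4 * f (θ * t)) := by
  refine intervalIntegral.continuous_parametric_intervalIntegral_of_continuous' (f := fun t θ : ℝ =>
    θ / 4 * f (θ * t)) ?_ 0 1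
  show Continuous fun p : ℝ × ℝ => p.2 / 4 * f (p.2 * p.1)
  fun_prop

theorem exf_lin {f g : ℝ → ℝ} (hf : Continuous f) (hg : Continuous g) (c s : ℝ) :
    Lop (fun t => f t + c * g t) s = Lop f s + c * Lop g s := by
  unfold Lop
  have e1 : ∀ t : ℝ, ∫ θ in (0 : ℝ)..1, θ / 4 * (f (θ * t) + c * g (θ * t)) =
      (∫ θ in (0 : ℝ)..1, θ / 4 * f (θ * t)) + c * ∫ θ in (0 : ℝ)..1, θ / 4 * g (θ * t) := by
    intro t
    rw [← intervalIntegral.integral_const_mul, ← intervalIntegral.integral_add]
    · refine intervalIntegral.integral_congr fun θ _ => ?_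
      ring
    · exact Continuous.intervalIntegrable (by fun_prop) _ _
    · exact Continuous.intervalIntegrable (by fun_prop) _ _
  simp only [e1]
  rw [intervalIntegral.integral_add ((exf_inner_cont hf).intervalIntegrable _ _)
    (((exf_inner_cont hg).const_mul c).intervalIntegrable _ _),
    intervalIntegral.integral_const_mul]

theorem exf_exp {s : ℝ} (hs : 0 ≤ s) :
    Lop (fun t => Real.exp (3 * |t|)) s ≤ Real.exp (3 * s) / 24 := by
  have hc : Continuous (fun t : ℝ => Real.exp (3 * |t|)) := by fun_prop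
  have inner : ∀ t : ℝ, 0 ≤ t →
      ∫ θ in (0 : ℝ)..1, θ / 4 * Real.exp (3 * |θ * t|) ≤ Real.exp (3 * t) / 8 := by
    intro t ht
    calc ∫ θ in (0 : ℝ)..1, θ / 4 * Real.exp (3 * |θ * t|)
        ≤ ∫ θ in (0 : ℝ)..1, θ / 4 * Real.exp (3 * t) := by
          refine intervalIntegral.integral_mono_on (by norm_num)
            (Continuous.intervalIntegrable (by fun_prop) _ _)
            (Continuous.intervalIntegrable (by fun_prop) _ _) ?_
          intro θ hθ
          have h1 : |θ * t| ≤ t := by
            rw [abs_of_nonneg (mul_nonneg hθ.1 ht)]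
            nlinarith [hθ.2]
          refine mul_le_mul_of_nonneg_left (Real.exp_le_exp.mpr (by linarith)) ?_
          have := hθ.1
          positivity
      _ = Real.exp (3 * t) / 8 := by
          rw [intervalIntegral.integral_mul_const, intervalIntegral.integral_div, integral_id]
          ring
  calc Lop (fun t => Real.exp (3 * |t|)) s
      ≤ ∫ t in (0 : ℝ)..s, Real.exp (3 * t) / 8 := by
        unfold Lop
        refine intervalIntegral.integral_mono_on hs
          ((exf_inner_cont hc).intervalIntegrable _ _)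
          (Continuous.intervalIntegrable (by fun_prop) _ _) ?_
        intro t ht
        exact inner t ht.1
    _ = Real.exp (3 * s) / 24 - Real.exp (3 * 0) / 24 := by
        refine intervalIntegral.integral_eq_sub_of_hasDerivAt (f := fun t => Real.exp (3 * t) / 24)
          ?_ (Continuous.intervalIntegrable (by fun_prop) _ _)
        intro t _
        have h1 : HasDerivAt (fun t : ℝ => 3 * t) 3 t := by
          simpa using (hasDerivAt_id t).const_mul (3 : ℝ)
        have h2 := (h1.exp).div_const 24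
        have h3 : Real.exp (3 * t) * 3 / 24 = Real.exp (3 * t) / 8 := by ring
        rw [h3] at h2
        exact h2
    _ ≤ Real.exp (3 * s) / 24 := by
        have : 0 ≤ Real.exp (3 * 0) / 24 := by positivity
        exact sub_le_self _ this

/-- The iterated operator. -/
noncomputable def exf_LL (u : ℝ → ℝ) (s : ℝ) : ℝ :=
  Lop (Lop (fun t => 6 * Real.exp (4 * u t))) s

theorem exf_LLcont (h : S_LOP) {u : ℝ → ℝ} (hu : Continuous u) : Continuous (exf_LL u) := by
  have h1 : Continuous (fun t => 6 * Real.exp (4 * u t)) := by fun_prop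
  exact (h _ (h _ h1).1).1

theorem exf_mono (h : S_LOP) {u v : ℝ → ℝ} (hu : Continuous u) (hv : Continuous v)
    (huv : ∀ t, 0 ≤ t → v t ≤ u t) {s : ℝ} (hs : 0 ≤ s) : exf_LL v s ≤ exf_LL u s := by
  have h1 : Continuous (fun t => 6 * Real.exp (4 * u t)) := by fun_prop
  have h2 : Continuous (fun t => 6 * Real.exp (4 * v t)) := by fun_prop
  refine (h _ (h _ h2).1).2.2.2 _ (h _ h1).1 s hs fun t ht _ => ?_
  refine (h _ h2).2.2.2 _ h1 t ht fun r hr _ => ?_
  have := huv r hr
  gcongr

theorem exf_diff (h : S_LOP) {u v : ℝ → ℝ} (hu : Continuous u) (hv : Continuous v) {c : ℝ}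
    (hc : 0 ≤ c) (hu2 : ∀ t, 0 ≤ t → u t ≤ Real.log 2) (huv : ∀ t, 0 ≤ t → v t ≤ u t)
    (hd : ∀ t, 0 ≤ t → u t - v t ≤ c * Real.exp (3 * t)) {s : ℝ} (hs : 0 ≤ s) :
    exf_LL u s - exf_LL v s ≤ 2 / 3 * c * Real.exp (3 * s) := by
  have h1 : Continuous (fun t => 6 * Real.exp (4 * u t)) := by fun_prop
  have h2 : Continuous (fun t => 6 * Real.exp (4 * v t)) := by fun_prop
  have he : Continuous (fun t : ℝ => Real.exp (3 * |t|)) := by fun_prop
  have e1 : ∀ t, 0 ≤ t → 6 * Real.exp (4 * u t) ≤
      6 * Real.exp (4 * v t) + 384 * c * Real.exp (3 * |t|) := by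
    intro t ht
    have a1 : Real.exp (4 * u t) * (4 * (v t - u t) + 1) ≤ Real.exp (4 * v t) := by
      have : Real.exp (4 * v t) = Real.exp (4 * u t) * Real.exp (4 * (v t - u t)) := by
        rw [← Real.exp_add]
        congr 1
        ring
      rw [this]
      exact mul_le_mul_of_nonneg_left (Real.add_one_le_exp _) (Real.exp_pos _).le
    have a2 : Real.exp (4 * u t) ≤ 16 := by
      have : Real.exp (4 * Real.log 2) = 16 := by
        rw [show 4 * Real.log 2 = Real.log 2 * (4 : ℕ) by push_cast; ring, Real.exp_mul,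
          Real.exp_log (by norm_num)]
        norm_num
      rw [← this]
      exact Real.exp_le_exp.mpr (by linarith [hu2 t ht])
    have a3 : Real.exp (4 * u t) * (4 * (u t - v t)) ≤ 16 * (4 * (u t - v t)) :=
      mul_le_mul_of_nonneg_right a2 (by linarith [huv t ht])
    have a4 := hd t ht
    rw [abs_of_nonneg ht]
    nlinarith
  have e2 : ∀ t, 0 ≤ t → Lop (fun t => 6 * Real.exp (4 * u t)) t ≤
      Lop (fun t => 6 * Real.exp (4 * v t)) t + 16 * c * Real.exp (3 * |t|) := by
    intro t ht
    have b1 := (h _ h1).2.2.2 (fun t => 6 * Real.exp (4 * v t) + 384 * c * Real.exp (3 * |t|))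
      (by fun_prop) t ht fun r hr _ => e1 r hr
    rw [exf_lin h2 he] at b1
    have b2 := exf_exp ht
    have b3 : 384 * c * Lop (fun t => Real.exp (3 * |t|)) t ≤
        384 * c * (Real.exp (3 * t) / 24) := mul_le_mul_of_nonneg_left b2 (by positivity)
    rw [abs_of_nonneg ht]
    linarith
  have b1 := (h _ (h _ h1).1).2.2.2
    (fun t => Lop (fun t => 6 * Real.exp (4 * v t)) t + 16 * c * Real.exp (3 * |t|))
    ((h _ h2).1.add (by fun_prop)) s hs fun r hr _ => e2 r hr
  rw [exf_lin (h _ h2).1 he] at b1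
  have b2 := exf_exp hs
  have b3 : 16 * c * Lop (fun t => Real.exp (3 * |t|)) s ≤
      16 * c * (Real.exp (3 * s) / 24) := mul_le_mul_of_nonneg_left b2 (by positivity)
  unfold exf_LL
  have b1' : Lop (Lop fun t => 6 * Real.exp (4 * u t)) s ≤
      Lop (Lop fun t => 6 * Real.exp (4 * v t)) s +
        16 * c * Lop (fun t => Real.exp (3 * |t|)) s := b1
  linarith

/-- The iteration. -/
noncomputable def exf_U : ℕ → ℝ → ℝ
  | 0 => fun s => Real.log 2 - Real.log (1 + |s|)
  | n + 1 => fun s => Real.log 2 - (1 + qq) * |s| + exf_LL (exf_U n) |s|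

theorem exf_U0_cont : Continuous (exf_U 0) := by
  show Continuous fun s : ℝ => Real.log 2 - Real.log (1 + |s|)
  refine continuous_const.sub (Continuous.log (by fun_prop) ?_)
  intro s
  have := abs_nonneg s
  positivity

theorem exf_U_cont (h : S_LOP) (n : ℕ) : Continuous (exf_U n) := by
  induction n with
  | zero => exact exf_U0_cont
  | succ n ih =>
    show Continuous fun s : ℝ => Real.log 2 - (1 + qq) * |s| + exf_LL (exf_U n) |s|
    exact (continuous_const.sub (continuous_const.mul continuous_abs)).add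
      ((exf_LLcont h ih).comp continuous_abs)

theorem exf_U1 (h1 : S_SPH) (s : ℝ) : exf_U 1 s = exf_U 0 s - qq * |s| := by
  show Real.log 2 - (1 + qq) * |s| + exf_LL (exf_U 0) |s| =
    Real.log 2 - Real.log (1 + |s|) - qq * |s|
  have e1 : (fun t : ℝ => 6 * Real.exp (4 * exf_U 0 t)) = fun t : ℝ => 96 / (1 + |t|) ^ 4 := by
    funext t
    have hp : (0 : ℝ) < 1 + |t| := by
      have := abs_nonneg t
      positivity
    show 6 * Real.exp (4 * (Real.log 2 - Real.log (1 + |t|))) = 96 / (1 + |t|) ^ 4
    rw [← Real.log_div (by norm_num) hp.ne', show 4 * Real.log (2 / (1 + |t|)) =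
      Real.log (2 / (1 + |t|)) * (4 : ℕ) by push_cast; ring, Real.exp_mul,
      Real.exp_log (by positivity), Real.rpow_natCast, div_pow]
    ring
  unfold exf_LL
  rw [e1, h1 |s| (abs_nonneg s)]
  ring

theorem exf_anti (h : S_LOP) (h1 : S_SPH) (n : ℕ) (s : ℝ) : exf_U (n + 1) s ≤ exf_U n s := by
  induction n generalizing s with
  | zero =>
    rw [exf_U1 h1]
    have : 0 ≤ qq * |s| := mul_nonneg (by unfold qq; norm_num) (abs_nonneg s)
    linarith
  | succ n ih =>
    show Real.log 2 - (1 + qq) * |s| + exf_LL (exf_U (n + 1)) |s| ≤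
      Real.log 2 - (1 + qq) * |s| + exf_LL (exf_U n) |s|
    have := exf_mono h (exf_U_cont h n) (exf_U_cont h (n + 1)) (fun t _ => ih t) (abs_nonneg s)
    linarith

theorem exf_le (h : S_LOP) (h1 : S_SPH) (n : ℕ) (s : ℝ) : exf_U n s ≤ Real.log 2 := by
  induction n with
  | zero =>
    show Real.log 2 - Real.log (1 + |s|) ≤ Real.log 2
    have : 0 ≤ Real.log (1 + |s|) := Real.log_nonneg (by linarith [abs_nonneg s])
    linarith
  | succ n ih => exact (exf_anti h h1 n s).trans ih

theorem exf_step (h : S_LOP) (h1 : S_SPH) (n : ℕ) (s : ℝ) :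
    exf_U n s - exf_U (n + 1) s ≤ qq * (2 / 3) ^ n * Real.exp (3 * |s|) := by
  have hq : 0 ≤ qq := by unfold qq; norm_num
  induction n generalizing s with
  | zero =>
    rw [exf_U1 h1, pow_zero, mul_one]
    have h2 := Real.add_one_le_exp (3 * |s|)
    have h3 := abs_nonneg s
    have : qq * |s| ≤ qq * Real.exp (3 * |s|) := mul_le_mul_of_nonneg_left (by linarith) hq
    linarith
  | succ n ih =>
    show (Real.log 2 - (1 + qq) * |s| + exf_LL (exf_U n) |s|) -
      (Real.log 2 - (1 + qq) * |s| + exf_LL (exf_U (n + 1)) |s|) ≤ _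
    have := exf_diff h (exf_U_cont h n) (exf_U_cont h (n + 1)) (c := qq * (2 / 3) ^ n)
      (by positivity) (fun t _ => exf_le h h1 n t) (fun t _ => exf_anti h h1 n t)
      (fun t ht => by
        have := ih t
        rwa [abs_of_nonneg ht] at this) (abs_nonneg s)
    rw [pow_succ]
    linarith

theorem exf (h1 : S_LOP) (h2 : S_SPH) : S_EXF := by
  have hq : 0 ≤ qq := by unfold qq; norm_num
  have hdist : ∀ s : ℝ, ∀ n : ℕ, dist (exf_U n s) (exf_U (n + 1) s) ≤
      (qq * Real.exp (3 * |s|)) * (2 / 3) ^ n := by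
    intro s n
    rw [Real.dist_eq, abs_of_nonneg (by linarith [exf_anti h1 h2 n s])]
    have := exf_step h1 h2 n s
    linarith
  have hlim : ∀ s : ℝ, ∃ l : ℝ, Tendsto (fun n => exf_U n s) atTop (𝓝 l) := fun s =>
    cauchySeq_tendsto_of_complete (cauchySeq_of_le_geometric (2 / 3) _ (by norm_num) (hdist s))
  choose F hF using hlim
  have hFd : ∀ s : ℝ, ∀ n : ℕ, dist (exf_U n s) (F s) ≤
      3 * qq * Real.exp (3 * |s|) * (2 / 3) ^ n := by
    intro s n
    have := dist_le_of_le_geometric_of_tendsto (2 / 3) _ (by norm_num) (hdist s) (hF s) n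
    refine this.trans (le_of_eq ?_)
    ring
  have hanti : ∀ s : ℝ, Antitone (fun n => exf_U n s) := fun s =>
    antitone_nat_of_succ_le fun n => exf_anti h1 h2 n s
  have hFle : ∀ s : ℝ, ∀ n : ℕ, F s ≤ exf_U n s := fun s n => (hanti s).le_of_tendsto (hF s) n
  have hpow : Tendsto (fun n : ℕ => (2 / 3 : ℝ) ^ n) atTop (𝓝 0) :=
    tendsto_pow_atTop_nhds_zero_of_lt_one (by norm_num) (by norm_num)
  have hFc : Continuous F := by
    have hlu : TendstoLocallyUniformly (fun n => exf_U n) F atTop := by
      rw [Metric.tendstoLocallyUniformly_iff]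
      intro ε hε x
      refine ⟨Metric.ball x 1, Metric.ball_mem_nhds x one_pos, ?_⟩
      have h3 : Tendsto (fun n : ℕ => 3 * qq * Real.exp (3 * (|x| + 1)) * (2 / 3 : ℝ) ^ n) atTop
          (𝓝 (3 * qq * Real.exp (3 * (|x| + 1)) * 0)) := hpow.const_mul _
      rw [mul_zero] at h3
      filter_upwards [h3.eventually (gt_mem_nhds hε)] with n hn y hy
      rw [dist_comm]
      refine (hFd y n).trans_lt (lt_of_le_of_lt ?_ hn)
      have h4 : |y| ≤ |x| + 1 := by
        have := Metric.mem_ball.mp hy
        rw [Real.dist_eq] at this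
        have h5 : |y| ≤ |y - x| + |x| := by
          have := abs_add_le (y - x) x
          rwa [sub_add_cancel] at this
        linarith
      gcongr
    exact hlu.continuous (Eventually.of_forall fun n => exf_U_cont h1 n).frequently
  have heq : ∀ s : ℝ, 0 ≤ s → F s = Real.log 2 - (1 + qq) * s +
      Lop (Lop (fun t => 6 * Real.exp (4 * F t))) s := by
    intro s hs
    have hLL : Tendsto (fun n => exf_LL (exf_U n) s) atTop (𝓝 (exf_LL F s)) := by
      rw [tendsto_iff_dist_tendsto_zero]
      have h3 : Tendsto (fun n : ℕ => 2 / 3 * (3 * qq * Real.exp (3 * s)) * (2 / 3 : ℝ) ^ n) atTop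
          (𝓝 (2 / 3 * (3 * qq * Real.exp (3 * s)) * 0)) := hpow.const_mul _
      rw [mul_zero] at h3
      refine squeeze_zero (fun n => dist_nonneg) (fun n => ?_) h3
      have m1 := exf_mono h1 (exf_U_cont h1 n) hFc (fun t _ => hFle t n) hs
      have m2 := exf_diff h1 (exf_U_cont h1 n) hFc (c := 3 * qq * (2 / 3) ^ n)
        (by positivity) (fun t _ => exf_le h1 h2 n t) (fun t _ => hFle t n)
        (fun t ht => by
          have := hFd t n
          rw [Real.dist_eq, abs_of_nonneg (by linarith [hFle t n]), abs_of_nonneg ht] at this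
          linarith) hs
      rw [Real.dist_eq, abs_of_nonneg (by linarith)]
      linarith
    have h4 : Tendsto (fun n => exf_U (n + 1) s) atTop
        (𝓝 (Real.log 2 - (1 + qq) * s + exf_LL F s)) := by
      have h5 : (fun n => exf_U (n + 1) s) = fun n =>
          Real.log 2 - (1 + qq) * s + exf_LL (exf_U n) s := by
        funext n
        show Real.log 2 - (1 + qq) * |s| + exf_LL (exf_U n) |s| = _
        rw [abs_of_nonneg hs]
      rw [h5]
      exact tendsto_const_nhds.add hLL
    exact tendsto_nhds_unique ((tendsto_add_atTop_iff_nat 1).mpr (hF s)) h4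
  refine ⟨F, hFc, heq, ?_⟩
  intro s hs
  refine (hFle s 1).trans (le_of_eq ?_)
  rw [exf_U1 h2]
  show Real.log 2 - Real.log (1 + |s|) - qq * |s| = _
  rw [abs_of_nonneg hs]

end Pool.Agent.Q82.QD
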