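import Pool.Agent.Q82.QD.Stm

/-!
# Project QD, job MF: lower bound of the mass function of the profile
-/

set_option autoImplicit false

open MeasureTheory Filter Topology Real Set

namespace Pool.Agent.Q82.QD

theorem mf_exp6 : Real.exp 6 ≤ 405 := by
  have h := Real.exp_one_lt_d9
  have e : Real.exp 6 = Real.exp 1 ^ 6 := by
    rw [← Real.exp_nat_mul]
    norm_num
  rw [e]
  calc Real.exp 1 ^ 6 ≤ 2.7182818286 ^ 6 := pow_le_pow_left₀ (Real.exp_pos _).le h.le 6
    _ ≤ 405 := by norm_num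

theorem mf (h1 : S_LOW) : S_MF := by
  intro F hF
  have hFc : Continuous F := hF.1
  have key : ∀ σ ∈ Icc (0 : ℝ) 2,
      319 / 400 * (96 * (σ / (1 + σ) ^ 4)) ≤ σ * (6 * Real.exp (4 * F σ)) := by
    intro σ hσ
    obtain ⟨h0, h2⟩ := hσ
    have hp : (0 : ℝ) < 1 + σ := by linarith
    have hlow := h1 F hF σ h0
    have hexp : Real.exp (3 * σ) ≤ 405 :=
      (Real.exp_le_exp.mpr (by linarith : 3 * σ ≤ 6)).trans mf_exp6
    have hq : qq * Real.exp (3 * σ) ≤ 405 / 8000 := by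
      unfold qq
      linarith
    have h3 : Real.log (2 / (1 + σ)) - 405 / 8000 ≤ F σ := by
      rw [Real.log_div (by norm_num) hp.ne']
      linarith
    have h4 : 319 / 400 * (16 / (1 + σ) ^ 4) ≤ Real.exp (4 * F σ) := by
      have e1 : Real.exp (4 * Real.log (2 / (1 + σ))) = 16 / (1 + σ) ^ 4 := by
        rw [show 4 * Real.log (2 / (1 + σ)) = Real.log (2 / (1 + σ)) * (4 : ℕ) by push_cast; ring,
          Real.exp_mul, Real.exp_log (by positivity), Real.rpow_natCast, div_pow]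
        norm_num
      have e2 : Real.exp (4 * (Real.log (2 / (1 + σ)) - 405 / 8000)) =
          16 / (1 + σ) ^ 4 * Real.exp (-(81 / 400)) := by
        rw [← e1, ← Real.exp_add]
        congr 1
        ring
      have e3 : (319 / 400 : ℝ) ≤ Real.exp (-(81 / 400)) := by
        have := Real.add_one_le_exp (-(81 / 400) : ℝ)
        linarith
      calc 319 / 400 * (16 / (1 + σ) ^ 4) = 16 / (1 + σ) ^ 4 * (319 / 400) := by ring
        _ ≤ 16 / (1 + σ) ^ 4 * Real.exp (-(81 / 400)) :=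
            mul_le_mul_of_nonneg_left e3 (by positivity)
        _ = Real.exp (4 * (Real.log (2 / (1 + σ)) - 405 / 8000)) := e2.symm
        _ ≤ Real.exp (4 * F σ) := Real.exp_le_exp.mpr (by linarith)
    calc 319 / 400 * (96 * (σ / (1 + σ) ^ 4)) =
          σ * (6 * (319 / 400 * (16 / (1 + σ) ^ 4))) := by ring
      _ ≤ σ * (6 * Real.exp (4 * F σ)) := by gcongr
  have hne : ∀ σ ∈ Set.uIcc (0 : ℝ) 2, (1 + σ) ≠ 0 := by
    intro σ hσ
    rw [Set.uIcc_of_le (by norm_num)] at hσ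
    have := hσ.1
    positivity
  have hci : IntervalIntegrable (fun σ : ℝ => 319 / 400 * (96 * (σ / (1 + σ) ^ 4))) volume 0 2 := by
    refine ContinuousOn.intervalIntegrable ?_
    refine continuousOn_const.mul (continuousOn_const.mul (continuousOn_id.div (by fun_prop) ?_))
    intro σ hσ
    exact pow_ne_zero 4 (hne σ hσ)
  have hint : ∫ σ in (0 : ℝ)..2, 319 / 400 * (96 * (σ / (1 + σ) ^ 4)) =
      319 / 400 * 96 * (10 / 81) := by
    have h5 : ∀ σ ∈ Set.uIcc (0 : ℝ) 2, HasDerivAt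
        (fun σ : ℝ => 319 / 400 * (96 * (-(1 / 2) * ((1 + σ) ^ 2)⁻¹ + 1 / 3 * ((1 + σ) ^ 3)⁻¹)))
        (319 / 400 * (96 * (σ / (1 + σ) ^ 4))) σ := by
      intro σ hσ
      have hn := hne σ hσ
      have d0 : HasDerivAt (fun σ : ℝ => 1 + σ) 1 σ := by
        simpa using (hasDerivAt_id σ).const_add (1 : ℝ)
      have d2 : HasDerivAt (fun σ : ℝ => ((1 + σ) ^ 2)⁻¹) (-(2 * (1 + σ)) / ((1 + σ) ^ 2) ^ 2) σ := by
        exact ((d0.fun_pow 2).fun_inv (pow_ne_zero 2 hn)).congr_deriv (by push_cast; ring)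
      have d3 : HasDerivAt (fun σ : ℝ => ((1 + σ) ^ 3)⁻¹)
          (-(3 * (1 + σ) ^ 2) / ((1 + σ) ^ 3) ^ 2) σ := by
        exact ((d0.fun_pow 3).fun_inv (pow_ne_zero 3 hn)).congr_deriv (by push_cast; ring)
      have d4 := (((d2.const_mul (-(1 / 2))).add (d3.const_mul (1 / 3))).const_mul 96).const_mul
        (319 / 400)
      refine d4.congr_deriv ?_
      field_simp
      ring
    rw [intervalIntegral.integral_eq_sub_of_hasDerivAt h5 hci]
    norm_num
  unfold MM
  calc (9 : ℝ) ≤ 319 / 400 * 96 * (10 / 81) := by norm_num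
    _ = ∫ σ in (0 : ℝ)..2, 319 / 400 * (96 * (σ / (1 + σ) ^ 4)) := hint.symm
    _ ≤ ∫ σ in (0 : ℝ)..2, σ * (6 * Real.exp (4 * F σ)) := by
        refine intervalIntegral.integral_mono_on (by norm_num) hci
          (Continuous.intervalIntegrable (by fun_prop) _ _) key

end Pool.Agent.Q82.QD
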