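import Pool.Agent.Q256.UI.Stm

/-!
# Job DEH of project UI
-/

set_option autoImplicit false

namespace Pool.Agent.Q53.UI

open Finset MvPolynomial Pool.Agent.Q256.UI

/-- The exponent `x^a y^b`. -/
private theorem fun0_eq (a b : ℕ) :
    (Finsupp.single (0 : Fin 2) a + Finsupp.single 1 b : Fin 2 →₀ ℕ) =
      (fun₀ | 0 => a | 1 => b) := by
  ext i
  fin_cases i <;> simp

theorem unit_homog {n : ℕ} {p : MvPolynomial (Fin 2) ℚ} (hp : p.IsHomogeneous n) (hu : IsUnit p) :
    n = 0 := by
  obtain ⟨c, hc, rfl⟩ := MvPolynomial.isUnit_iff_eq_C_of_isReduced.1 hu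
  have h1 : (C c : MvPolynomial (Fin 2) ℚ).IsHomogeneous 0 := isHomogeneous_C _ _
  have h2 : (C c : MvPolynomial (Fin 2) ℚ) ≠ 0 := hu.ne_zero
  exact hp.inj_right h1 h2

theorem deh : S_DEH := by
  intro d Φ hd hL
  obtain ⟨hhom, hirr⟩ := hL
  let e : Fin 2 ≃ Fin 2 := Equiv.swap 0 1
  have he0 : e 0 = 1 := Equiv.swap_apply_left _ _
  have he1 : e 1 = 0 := Equiv.swap_apply_right _ _
  set Ψ : MvPolynomial (Fin 2) ℤ := rename e Φ with hΨ
  have hΨh : Ψ.IsHomogeneous d := hhom.rename_isHomogeneous
  have hcoef : ∀ a b : ℕ, Ψ.coeff (Finsupp.single 0 a + Finsupp.single 1 b) =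
      Φ.coeff (Finsupp.single 0 b + Finsupp.single 1 a) := by
    intro a b
    have h1 : (Finsupp.single 0 a + Finsupp.single 1 b : Fin 2 →₀ ℕ) =
        (Finsupp.single 0 b + Finsupp.single 1 a : Fin 2 →₀ ℕ).mapDomain e := by
      rw [Finsupp.mapDomain_add, Finsupp.mapDomain_single, Finsupp.mapDomain_single, he0, he1,
        add_comm]
    rw [h1, hΨ, coeff_rename_mapDomain _ e.injective]
  set f : Polynomial ℤ := ∑ i ∈ range (d + 1),
    Polynomial.monomial i (Φ.coeff (Finsupp.single 0 (d - i) + Finsupp.single 1 i)) with hf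
  have hfc : ∀ i, f.coeff i = if i ≤ d then
      Φ.coeff (Finsupp.single 0 (d - i) + Finsupp.single 1 i) else 0 := by
    intro i
    rw [hf, Polynomial.finsetSum_coeff]
    simp only [Polynomial.coeff_monomial]
    rw [Finset.sum_ite_eq' (range (d + 1)) i]
    simp
  have hfd : f.natDegree ≤ d := by
    rw [Polynomial.natDegree_le_iff_coeff_eq_zero]
    intro N hN
    rw [hfc, if_neg (by omega)]
  have hfh : f.homogenize d = Ψ := by
    ext m
    rw [Polynomial.coeff_homogenize]
    have hm : m = Finsupp.single 0 (m 0) + Finsupp.single 1 (m 1) := by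
      ext i
      fin_cases i <;> simp
    split_ifs with h
    · rw [hfc, if_pos (by omega)]
      nth_rw 3 [hm]
      rw [hcoef]
      congr 3
      omega
    · symm
      apply hΨh.coeff_eq_zero
      intro h'
      apply h
      rw [← h', Finsupp.degree_eq_sum, Fin.sum_univ_two]
  have hΨirr : Irreducible (MvPolynomial.map (Int.castRingHom ℚ) Ψ) := by
    rw [hΨ, map_rename]
    have : (rename e (MvPolynomial.map (Int.castRingHom ℚ) Φ)) =
        (renameEquiv ℚ e) (MvPolynomial.map (Int.castRingHom ℚ) Φ) := rfl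
    rw [this]
    exact (MulEquiv.irreducible_iff (renameEquiv ℚ e)).2 hirr
  have hΨq : (f.map (Int.castRingHom ℚ)).homogenize d =
      MvPolynomial.map (Int.castRingHom ℚ) Ψ := by
    rw [Polynomial.homogenize_map, hfh]
  have hdeg : f.natDegree = d := by
    by_contra hne
    have hlt : f.natDegree ≤ d - 1 := by omega
    have h1 : f.homogenize d = f.homogenize (d - 1) * (1 : Polynomial ℤ).homogenize 1 := by
      rw [← Polynomial.homogenize_mul f 1 hlt (by simp), mul_one]
      congr 1
      omega
    have h2 : MvPolynomial.map (Int.castRingHom ℚ) Ψ =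
        MvPolynomial.map (Int.castRingHom ℚ) (f.homogenize (d - 1)) * X 1 := by
      rw [← hfh, h1]
      simp
    have h3 := hΨirr.isUnit_or_isUnit h2
    rcases h3 with h3 | h3
    · have h4 : (MvPolynomial.map (Int.castRingHom ℚ) (f.homogenize (d - 1))).IsHomogeneous
          (d - 1) := (Polynomial.isHomogeneous_homogenize f).map _
      have := unit_homog h4 h3
      omega
    · have := unit_homog (isHomogeneous_X ℚ (1 : Fin 2)) h3
      omega
  have hfq : (f.map (Int.castRingHom ℚ)).natDegree = d := by
    rw [Polynomial.natDegree_map_eq_of_injective (RingHom.injective_int _), hdeg]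
  refine ⟨f, hdeg, ?_, ?_, ?_⟩
  · refine ⟨?_, ?_⟩
    · intro hu
      have := Polynomial.natDegree_eq_zero_of_isUnit hu
      omega
    · intro g h hgh
      have hne : f.map (Int.castRingHom ℚ) ≠ 0 := by
        intro h0
        rw [h0] at hfq
        simp at hfq
        omega
      have hg0 : g ≠ 0 := by
        rintro rfl
        rw [zero_mul] at hgh
        exact hne hgh
      have hh0 : h ≠ 0 := by
        rintro rfl
        rw [mul_zero] at hgh
        exact hne hgh
      have hsum : g.natDegree + h.natDegree = d := by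
        rw [← Polynomial.natDegree_mul hg0 hh0, ← hgh, hfq]
      have h1 : MvPolynomial.map (Int.castRingHom ℚ) Ψ =
          g.homogenize g.natDegree * h.homogenize h.natDegree := by
        rw [← Polynomial.homogenize_mul g h le_rfl le_rfl, ← hgh, hsum, hΨq]
      rcases hΨirr.isUnit_or_isUnit h1 with h3 | h3
      · left
        have := unit_homog (Polynomial.isHomogeneous_homogenize g) h3
        rw [Polynomial.eq_C_of_natDegree_eq_zero this] at hg0 ⊢
        rw [Polynomial.isUnit_C]
        exact isUnit_iff_ne_zero.2 (fun h0 => hg0 (by rw [h0, Polynomial.C_0]))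
      · right
        have := unit_homog (Polynomial.isHomogeneous_homogenize h) h3
        rw [Polynomial.eq_C_of_natDegree_eq_zero this] at hh0 ⊢
        rw [Polynomial.isUnit_C]
        exact isUnit_iff_ne_zero.2 (fun h0 => hh0 (by rw [h0, Polynomial.C_0]))
  · intro i hi
    rw [hfc, if_pos hi]
  · intro x y hx
    have h1 : ev Φ x y = MvPolynomial.eval₂ (Int.castRingHom ℝ) ![y, x] (f.homogenize d) := by
      rw [hfh, hΨ, eval₂_rename]
      unfold ev
      congr 1
      funext i
      fin_cases i
      · simp [he0]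
      · simp [he1]
    rw [h1, Polynomial.eval_eq_sum_range' (n := d + 1)
      (lt_of_le_of_lt (Polynomial.natDegree_map_le) (by omega)), mul_sum]
    unfold Polynomial.homogenize
    rw [eval₂_sum, Finset.Nat.sum_antidiagonal_eq_sum_range_succ_mk]
    apply sum_congr rfl
    intro k hk
    rw [mem_range] at hk
    rw [eval₂_monomial, Polynomial.coeff_map]
    have h2 : ((fun₀ | (0 : Fin 2) => k | 1 => d - k : Fin 2 →₀ ℕ).prod fun n e => ![y, x] n ^ e) =
        y ^ k * x ^ (d - k) := by
      rw [Finsupp.prod_fintype _ _ (by intro i; simp), Fin.prod_univ_two]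
      simp
    rw [h2]
    have h3 : x ^ d = x ^ k * x ^ (d - k) := by
      rw [← pow_add]
      congr 1
      omega
    rw [h3, div_pow]
    field_simp

end Pool.Agent.Q53.UI
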